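import Pool.Agent.Helper2.SV.GoalsC

/-!
# Packet SV-I12
-/

set_option autoImplicit false

namespace Pool.Agent.Helper5.SV

open Pool.Agent.Helper2.SV

theorem goalI12 (hCH : G_CH) : G_I12 := by
  intro V _ G w u d hcf hMF hW hF hV0
  refine ⟨?_, ?_⟩
  · intro h
    refine hMF.join (V0 G u d ∪ EE G u d 0) (EE G u d 0) (SS G u d 0) (hV0.mono Set.subset_union_left)
      ?_ Set.subset_union_right ?_ (hF.sQ 0) ?_
    · intro hu
      have : u ∈ V0 G u d ∪ EE G u d 0 := by rw [hu]; trivial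
      rcases this with h1 | h1
      · exact h1.1.1 rfl
      · exact h1.1.1.1 rfl
    · rintro x hx (h1 | h1)
      · exact hx.1.1 h1
      · exact hx.1.2 0 h1
    · intro x hx y hy hxy
      have hyT : y ∈ TT G u d := by
        refine ⟨fun h1 => hy (Or.inl h1), fun j h1 => ?_⟩
        have hj : j = 0 := (h j).1 ⟨y, h1⟩
        subst hj
        exact hy (Or.inr h1)
      rcases hx with hx | hx
      · exact absurd hxy (hF.v0T x hx y hyT)
      · exact ⟨hx, hyT, x, hx, hxy.symm⟩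
  · intro h
    obtain ⟨g0, hg0⟩ := (h 0).2 (Or.inl rfl)
    obtain ⟨g1, hg1⟩ := (h 1).2 (Or.inr rfl)
    have h4 := hF.e4 0 (Or.inl ⟨g0, hg0⟩) ⟨g0, hg0.1⟩ ⟨g1, hg1.1⟩
    have key : ∀ i, ∀ g ∈ EE G u d i, g ∈ V2 G u d 0 ∪ V2 G u d (0 + 1) := by
      intro i g hg
      rcases (h i).1 ⟨g, hg⟩ with hi | hi
      · subst hi; exact Or.inl hg.1
      · subst hi; exact Or.inr hg.1
    have hcl := (hCH V G w u d hcf hMF hW hF hV0).2 (by
      intro y hy i g hg hyg j g' hg'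
      exact h4.2.2 y hy g (key i g hg) hyg g' (key j g' hg'))
    obtain ⟨⟨i, g, hg, j, g', hg', hne, hna⟩, -⟩ := hcl
    have hd : ∀ i, ∀ g ∈ EE G u d i, G.Adj g (d 1) := by
      intro i g hg
      rcases (h i).1 ⟨g, hg⟩ with hi | hi
      · subst hi; exact (hg.1.2 1).2 (Or.inr rfl)
      · subst hi; exact (hg.1.2 1).2 (Or.inl rfl)
    exact hna (hF.common g g' 1 hg.1.1 hg'.1.1 hne (hd i g hg) (hd j g' hg'))

end Pool.Agent.Helper5.SV
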